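import Mathlib
import Pool.Agent.T2H36.MG.H6

/-!
# The Mumford-Tate conjecture for large Mumford-Tate groups, from one prime number

`H = N ⊕ V_1 ⊕ ... ⊕ V_r` is the Hodge structure on (a Tate twist of) the cohomology of a smooth
projective variety `X` over a number field `K`. `N` is the algebraic part (trivial Hodge structure,
the Galois group acts through finite groups). Every `V_i` has a nondegenerate form `Q_i` which is
(up to the multiplier) preserved by the Hodge structure and by the Galois group: either `Q_i` is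
alternating and `V_i` has weight `w` (the same odd number for all `i`), or `Q_i` is symmetric and `V_i`
has weight zero, its rank is odd and at least five or even and at least eight. The Mumford-Tate group
of `H` is as large as these forms allow: it contains the product of the groups `Sp(V_i)` and `SO(V_i)`.

**Theorem.** Suppose that the Mumford-Tate conjecture for `H` holds at ONE prime number `ℓ₀` (which is
odd, does not divide `n_i - 1` if `V_i` is orthogonal of odd rank `n_i`, and for orthogonal `V_i` of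
even rank `n_i` does not divide `(n_i - 2) (n_i - 4)` and divides the determinant of `Q_i` to an even
power). Then
* the Mumford-Tate conjecture for `H` holds at all prime numbers `ℓ` outside a set of natural density
  zero;
* at EVERY prime number `ℓ` the Mumford-Tate conjecture for `H` is equivalent to the Tate conjecture on
  endomorphisms of the `V_i` at `ℓ`: the `V_i ⊗ ℚ_ℓ` are semisimple, and the endomorphisms of
  `V_i ⊗ ℚ_ℓ` commuting with an open subgroup of the Galois group are scalars.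

Nothing is assumed on the Hodge numbers, and no relation between different `V_i` is excluded a priori
besides what the Mumford-Tate group says.

Idea of the proof: the Mumford-Tate conjecture at `ℓ₀` gives the full Lie algebra of the image of the
Galois group on the sum of the `V_i`. The starting files contain the transport of this fact from one
prime to 100 percent of the primes and to all primes with semisimple representations and scalar
commutants. By the density of the `ℓ`-adic points in the groups of isometries and the infinitely many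
values of the multiplier, the identity component of the Zariski closure is the group `G` of all
families of similitudes of the alternating `V_i` with a common multiplier and isometries of
determinant one of the symmetric `V_i`; and the Mumford-Tate group is the same group `G`.
-/

set_option autoImplicit false

namespace Pool.Agent.Results.MP_c1bb77_ag.BigGroupOnePrime

open MvPolynomial Matrix Filter Topology NumberField IsDedekindDomain

noncomputable section

section groups

variable {ι : Type} [Fintype ι] [DecidableEq ι]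

/-- The value of a rational polynomial in the entries at a matrix. -/
def value {R : Type} [CommRing R] [Algebra ℚ R] (g : Matrix ι ι R)
    (f : MvPolynomial (ι × ι) ℚ) : R :=
  aeval (fun q : ι × ι => g q.1 q.2) f

/-- `G` is the set of complex points of an algebraic subgroup over `ℚ` of the general linear
group. -/
def IsQGroup (G : Set (Matrix ι ι ℂ)) : Prop :=
  (∃ P : Set (MvPolynomial (ι × ι) ℚ), ∀ g, g ∈ G ↔ g.det ≠ 0 ∧ ∀ f ∈ P, value g f = 0) ∧
  1 ∈ G ∧ (∀ a ∈ G, ∀ b ∈ G, a * b ∈ G) ∧ ∀ a ∈ G, a⁻¹ ∈ G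

/-- The complex points of the Mumford-Tate group: the smallest algebraic subgroup over `ℚ` which
contains `h z` for all `z`. -/
def mumfordTate (h : ℂ → Matrix ι ι ℂ) : Set (Matrix ι ι ℂ) :=
  {g | ∀ G, IsQGroup G → (∀ z, z ≠ 0 → h z ∈ G) → g ∈ G}

/-- The points of the Mumford-Tate group over a field `R`. -/
def InMumfordTate {R : Type} [Field R] [Algebra ℚ R] (h : ℂ → Matrix ι ι ℂ)
    (g : Matrix ι ι R) : Prop :=
  ∀ f : MvPolynomial (ι × ι) ℚ, (∀ m ∈ mumfordTate h, value m f = 0) → value g f = 0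

variable {ℓ : ℕ} [Fact ℓ.Prime] {Γ : Type} [Group Γ]

/-- The points of the identity component of the Zariski closure of `ρ(Γ)` over the algebraic
closure of `ℚ_ℓ`: a polynomial that vanishes on the image of a subgroup of finite index vanishes
at `g`. -/
def InMonodromy (ρ : Γ →* Matrix ι ι ℚ_[ℓ]) (g : Matrix ι ι (AlgebraicClosure ℚ_[ℓ])) : Prop :=
  ∀ f : MvPolynomial (ι × ι) (AlgebraicClosure ℚ_[ℓ]),
    (∃ Δ : Subgroup Γ, Δ.FiniteIndex ∧ ∀ s ∈ Δ,
      aeval (fun q : ι × ι => algebraMap ℚ_[ℓ] (AlgebraicClosure ℚ_[ℓ]) (ρ s q.1 q.2)) f = 0) →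
    aeval (fun q : ι × ι => g q.1 q.2) f = 0

/-- The Mumford-Tate conjecture: the two groups agree over `ℚ_ℓ`. -/
def MumfordTateConjecture (h : ℂ → Matrix ι ι ℂ) (ρ : Γ →* Matrix ι ι ℚ_[ℓ]) : Prop :=
  ∀ g : Matrix ι ι (AlgebraicClosure ℚ_[ℓ]), g.det ≠ 0 → (InMonodromy ρ g ↔ InMumfordTate h g)

end groups

variable {κ : Type} [Fintype κ] [DecidableEq κ] {ι : Type} [Fintype ι] [DecidableEq ι] {n : ι → ℕ}

/-- A rational Hodge structure on `ℚ^κ`: the projections `e (a, b)` to the pieces of type `(a, b)`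
of `ℂ^κ`; they are exchanged by complex conjugation, and the pieces of every weight are defined
over `ℚ`. -/
structure RationalHodgeStructure (κ : Type) [Fintype κ] [DecidableEq κ] where
  /-- the types which occur -/
  types : Finset (ℤ × ℤ)
  /-- the projections -/
  e : ℤ × ℤ → Matrix κ κ ℂ
  mul : ∀ a ∈ types, ∀ b ∈ types, e a * e b = if a = b then e a else 0
  sum : ∑ a ∈ types, e a = 1
  conj : ∀ a ∈ types, a.swap ∈ types ∧ (e a).map (starRingEnd ℂ) = e a.swap
  weight : ∀ w : ℤ, ∃ P : Matrix κ κ ℚ,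
    ∑ a ∈ types with a.1 + a.2 = w, e a = P.map (algebraMap ℚ ℂ)

/-- The action of `ℂ^×`: multiplication by `z ^ (-a) * conj z ^ (-b)` on the piece of type
`(a, b)`. -/
def RationalHodgeStructure.h (V : RationalHodgeStructure κ) (z : ℂ) : Matrix κ κ ℂ :=
  ∑ a ∈ V.types, (z ^ (-a.1) * starRingEnd ℂ z ^ (-a.2)) • V.e a

/-- `Q` is a nondegenerate bilinear form on `V`: if `sp` is true, it is alternating and `h z`
multiplies it by `(z * conj z) ^ (-w)`; if `sp` is false, it is symmetric and `h z` preserves it -/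
def IsFormOn {m : ℕ} (w : ℤ) (sp : Bool) (V : RationalHodgeStructure (Fin m))
    (Q : Matrix (Fin m) (Fin m) ℚ) : Prop :=
  Q.det ≠ 0 ∧ Qᵀ = (if sp then -Q else Q) ∧ ∀ z : ℂ, z ≠ 0 →
    (V.h z)ᵀ * Q.map (algebraMap ℚ ℂ) * V.h z =
      (if sp then (z * starRingEnd ℂ z) ^ (-w) else 1) • Q.map (algebraMap ℚ ℂ)

/-- The block diagonal matrix with the block `A` on `N` and the blocks `t i` on `V_i` -/
def blocks {R : Type} [Zero R] (A : Matrix κ κ R) (t : ∀ i, Matrix (Fin (n i)) (Fin (n i)) R) :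
    Matrix (κ ⊕ Σ i, Fin (n i)) (κ ⊕ Σ i, Fin (n i)) R :=
  fromBlocks A 0 0 (blockDiagonal' t)

/-- The action of `ℂ^×` on `N ⊕ (sum of the V_i)`, trivial on `N` -/
def hodge (κ : Type) [Fintype κ] [DecidableEq κ] (V : ∀ i, RationalHodgeStructure (Fin (n i)))
    (z : ℂ) : Matrix (κ ⊕ Σ i, Fin (n i)) (κ ⊕ Σ i, Fin (n i)) ℂ :=
  blocks 1 fun i => (V i).h z

/-- The Galois representation on `N ⊕ (sum of the V_i)` -/
def galois {ℓ : ℕ} [Fact ℓ.Prime] {Γ : Type} [Group Γ] (α : Γ →* Matrix κ κ ℚ_[ℓ])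
    (ρ : ∀ i, Γ →* Matrix (Fin (n i)) (Fin (n i)) ℚ_[ℓ]) :
    Γ →* Matrix (κ ⊕ Σ i, Fin (n i)) (κ ⊕ Σ i, Fin (n i)) ℚ_[ℓ] where
  toFun σ := blocks (α σ) fun i => ρ i σ
  map_one' := (Pool.Agent.T2H36.MG.tot' α ρ).map_one
  map_mul' := (Pool.Agent.T2H36.MG.tot' α ρ).map_mul

/-- the absolute Galois group of `K`, with its profinite (Krull) topology -/
abbrev AbsoluteGaloisGroup (K : Type) [Field K] : Type := Gal(AlgebraicClosure K/K)

/-- `σ` is an (arithmetic) Frobenius element at the prime `v` of the number field `K`: for some prime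
`Q` of the algebraic closure above `v` it acts on the residue field as `x ↦ x ^ N(v)` -/
def IsFrobenius {K : Type} [Field K] [NumberField K] (v : HeightOneSpectrum (𝓞 K))
    (σ : AbsoluteGaloisGroup K) : Prop :=
  ∃ Q : Ideal (𝓞 (AlgebraicClosure K)), Q.IsMaximal ∧
    Q.comap (algebraMap (𝓞 K) (𝓞 (AlgebraicClosure K))) = v.asIdeal ∧
    ∀ x : 𝓞 (AlgebraicClosure K), σ • x - x ^ Ideal.absNorm v.asIdeal ∈ Q

/-- `χ` is the multiplier of weight `w`: its value at (the inverses of arithmetic) Frobenius elements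
at `v ∉ S` prime to `ℓ` is `N(v) ^ w` -/
def IsMultiplier {K : Type} [Field K] [NumberField K] (w : ℤ) (S : Set (HeightOneSpectrum (𝓞 K)))
    (ℓ : ℕ) [Fact ℓ.Prime] (χ : AbsoluteGaloisGroup K →* ℚ_[ℓ]) : Prop :=
  ∀ v ∉ S, (ℓ : 𝓞 K) ∉ v.asIdeal → ∀ σ : AbsoluteGaloisGroup K, IsFrobenius v σ →
    χ σ⁻¹ = (Ideal.absNorm v.asIdeal : ℚ_[ℓ]) ^ w

/-- `ρ` is the representation on one piece: it is continuous and multiplies the form by `χ` (`sp`
true) or preserves it (`sp` false), and for all `v ∉ S` prime to `ℓ` the characteristic polynomial of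
the geometric Frobenius elements at `v` is `P v` -/
def IsSystem {K : Type} [Field K] [NumberField K] (S : Set (HeightOneSpectrum (𝓞 K)))
    (P : HeightOneSpectrum (𝓞 K) → Polynomial ℚ) {m : ℕ} (sp : Bool)
    (Q : Matrix (Fin m) (Fin m) ℚ) (ℓ : ℕ) [Fact ℓ.Prime]
    (χ : AbsoluteGaloisGroup K →* ℚ_[ℓ])
    (ρ : AbsoluteGaloisGroup K →* Matrix (Fin m) (Fin m) ℚ_[ℓ]) : Prop :=
  Continuous ρ ∧
    (∀ σ, (ρ σ)ᵀ * Q.map (algebraMap ℚ ℚ_[ℓ]) * ρ σ =
      (if sp then χ σ else 1) • Q.map (algebraMap ℚ ℚ_[ℓ])) ∧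
    ∀ v ∉ S, (ℓ : 𝓞 K) ∉ v.asIdeal → ∀ σ : AbsoluteGaloisGroup K, IsFrobenius v σ →
      (ρ σ⁻¹).charpoly = (P v).map (algebraMap ℚ ℚ_[ℓ])

/-- the condition on the prime number `ℓ₀` for one piece (`m` is the rank, `Q` the form) -/
def IsGoodPrime (sp : Bool) (m : ℕ) (Q : Matrix (Fin m) (Fin m) ℚ) (ℓ₀ : ℕ) : Prop :=
  if sp then 0 < m ∧ ℓ₀ ≠ 2 else (Odd m ∧ 5 ≤ m ∧ ¬ ℓ₀ ∣ m - 1) ∨
    (Even m ∧ 8 ≤ m ∧ ¬ ℓ₀ ∣ (m - 2) * (m - 4) ∧ Even (padicValRat ℓ₀ Q.det))

/-- every stable subspace has a stable complement -/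
def IsSemisimpleRep {F Γ : Type} [Field F] [Group Γ] {m : ℕ}
    (ρ : Γ →* Matrix (Fin m) (Fin m) F) : Prop :=
  ∀ W : Submodule F (Fin m → F), (∀ σ, ∀ w ∈ W, ρ σ *ᵥ w ∈ W) →
    ∃ W' : Submodule F (Fin m → F), IsCompl W W' ∧ ∀ σ, ∀ w ∈ W', ρ σ *ᵥ w ∈ W'

/-- every matrix which commutes with an open subgroup is scalar -/
def HasScalarCommutants {F Γ : Type} [Field F] [Group Γ] [TopologicalSpace Γ] {m : ℕ}
    (ρ : Γ →* Matrix (Fin m) (Fin m) F) : Prop :=
  ∀ (A : Matrix (Fin m) (Fin m) F) (U : Subgroup Γ), IsOpen (U : Set Γ) →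
    (∀ σ ∈ U, A * ρ σ = ρ σ * A) → ∃ c : F, A = c • (1 : Matrix (Fin m) (Fin m) F)

/-- the set `A` of prime numbers has natural density zero -/
def HasDensityZero (A : Set ℕ) : Prop :=
  Tendsto (fun n : ℕ => (Nat.card {ℓ : ℕ // ℓ ≤ n ∧ ℓ ∈ A} : ℝ) / (Nat.primeCounting n : ℝ))
    atTop (𝓝 0)

theorem h_mul {m : ℕ} (V : RationalHodgeStructure (Fin m)) {z u : ℂ} :
    V.h (z * u) = V.h z * V.h u := by
  unfold RationalHodgeStructure.h
  rw [Finset.sum_mul]
  refine Finset.sum_congr rfl fun a ha => ?_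
  rw [Finset.mul_sum, Finset.sum_eq_single a]
  · rw [smul_mul_smul_comm, V.mul a ha a ha, if_pos rfl, map_mul, mul_zpow, mul_zpow]
    congr 1
    ring
  · intro b hb hba
    rw [smul_mul_smul_comm, V.mul a ha b hb, if_neg (Ne.symm hba), smul_zero]
  · intro h
    exact absurd ha h

/-- **The Mumford-Tate conjecture at one prime number gives the conjecture at 100 percent of the prime
numbers, and at every prime number at which the Tate conjecture on endomorphisms holds, for all large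
Mumford-Tate groups.** -/
theorem result {K : Type} [Field K] [NumberField K] (S : Set (HeightOneSpectrum (𝓞 K)))
    (hS : S.Finite) (w : ℤ) (hw : Odd w)
    -- the Hodge structures
    (sp : ι → Bool) (V : ∀ i, RationalHodgeStructure (Fin (n i)))
    (Q : ∀ i, Matrix (Fin (n i)) (Fin (n i)) ℚ) (hQ : ∀ i, IsFormOn w (sp i) (V i) (Q i))
    (hbig : ∀ t : ∀ i, Matrix (Fin (n i)) (Fin (n i)) ℂ,
      (∀ i, (t i)ᵀ * (Q i).map (algebraMap ℚ ℂ) * t i = (Q i).map (algebraMap ℚ ℂ)) →
      (∀ i, (t i).det = 1) → blocks (1 : Matrix κ κ ℂ) t ∈ mumfordTate (hodge κ V))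
    -- the Galois representations
    (α : ∀ (ℓ : ℕ) [Fact ℓ.Prime], AbsoluteGaloisGroup K →* Matrix κ κ ℚ_[ℓ])
    (hα : ∀ (ℓ : ℕ) [Fact ℓ.Prime], (Set.range (α ℓ)).Finite)
    (χ : ∀ (ℓ : ℕ) [Fact ℓ.Prime], AbsoluteGaloisGroup K →* ℚ_[ℓ])
    (hχ : ∀ (ℓ : ℕ) [Fact ℓ.Prime], IsMultiplier w S ℓ (χ ℓ))
    (ρ : ∀ (i : ι) (ℓ : ℕ) [Fact ℓ.Prime],
      AbsoluteGaloisGroup K →* Matrix (Fin (n i)) (Fin (n i)) ℚ_[ℓ])
    (P : ι → HeightOneSpectrum (𝓞 K) → Polynomial ℚ)
    (hρ : ∀ (i : ι) (ℓ : ℕ) [Fact ℓ.Prime], IsSystem S (P i) (sp i) (Q i) ℓ (χ ℓ) (ρ i ℓ))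
    -- the prime number `ℓ₀`
    (ℓ₀ : ℕ) [Fact ℓ₀.Prime] (hℓ₀ : ∀ i, IsGoodPrime (sp i) (n i) (Q i) ℓ₀)
    (hone : MumfordTateConjecture (hodge κ V) (galois (α ℓ₀) fun i => ρ i ℓ₀)) :
    HasDensityZero {ℓ | ∃ _ : Fact ℓ.Prime,
      ¬ MumfordTateConjecture (hodge κ V) (galois (α ℓ) fun i => ρ i ℓ)} ∧
    ∀ (ℓ : ℕ) [Fact ℓ.Prime],
      MumfordTateConjecture (hodge κ V) (galois (α ℓ) fun i => ρ i ℓ) ↔
        ∀ i, IsSemisimpleRep (ρ i ℓ) ∧ HasScalarCommutants (ρ i ℓ) := by
  have hw0 : w ≠ 0 := by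
    rintro rfl
    exact absurd hw (by decide)
  have hh : Pool.Agent.T2H36.MG.Hod κ Q (fun i => bif sp i then 1 else 0) (hodge κ V) := by
    refine Pool.Agent.T2H36.MG.hod_of (t := fun i z => (V i).h z) (fun i => (hQ i).1) hw0
      (fun i z u _ _ => h_mul (V i)) fun i z hz => ?_
    have h1 := (hQ i).2.2 z hz
    cases hsp : sp i with
    | true =>
      rw [hsp, if_pos rfl] at h1
      show _ = _
      simp only [cond_true, pow_one]
      exact h1
    | false =>
      rw [hsp] at h1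
      show _ = _
      simp only [cond_false, pow_zero]
      simpa using h1
  have hgood : ∀ i, Pool.Agent.T2H36.MG.Good (sp i) (n i) (Q i) ℓ₀ := by
    intro i
    have h1 := (hQ i).2.1
    have h2 := hℓ₀ i
    unfold IsGoodPrime at h2
    cases hsp : sp i with
    | true =>
      rw [hsp, if_pos rfl] at h1 h2
      exact ⟨h2.1, h1, h2.2⟩
    | false =>
      rw [hsp] at h1 h2
      exact ⟨by simpa using h1, by simpa using h2⟩
  refine Pool.Agent.T2H36.MG.mg_final (P := P) hS (fun i => (hQ i).1) hh hbig hw0 α hα χ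
    (fun ℓ _ => hχ ℓ) ρ (fun i ℓ _ => (hρ i ℓ).1) (fun i ℓ _ g => ?_)
    (fun i ℓ _ => (hρ i ℓ).2.2) ℓ₀ hgood hone
  have h1 := (hρ i ℓ).2.1 g
  cases hsp : sp i with
  | true =>
    rw [hsp, if_pos rfl] at h1
    show _ = _
    simp only [cond_true, pow_one]
    exact h1
  | false =>
    rw [hsp] at h1
    show _ = _
    simp only [cond_false, pow_zero]
    simpa using h1

end

end Pool.Agent.Results.MP_c1bb77_ag.BigGroupOnePrime
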