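import Mathlib
import Pool.Agent.T2H36.FB.B1

/-!
# The Mumford-Tate conjecture for the fibres of families with big monodromy outside one thin set
(unconditional)

Let `f : X → B` be a smooth projective family over a connected base `B` over a number field, and
suppose that (Tate twists of) the cohomology of the fibres (or a part of it, for example the middle
cohomology; `X_b` can be a product) is `H_b = N ⊕ V_1 ⊕ ... ⊕ V_r` as local systems, where the
monodromy on `N` is finite (algebraic classes), and `V_i` has rank `n_i` and a nondegenerate form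
`Q_i`: either `Q_i` is alternating and `V_i` has weight `w` (after Tate twists the same odd number, for
example `w = 1`, for all `i`), or `Q_i` is symmetric, `V_i` has weight zero and `n_i` is odd `≥ 5` or
even `≥ 8`.

`A` is the topological fundamental group of `B(ℂ)` with the monodromy representation `mon`, `Γ` the
étale fundamental group of `B`, `τ : A → Γ` the canonical homomorphism and `α_ℓ ⊕ β_(1,ℓ) ⊕ ...` the
representation of `Γ` on the `ℓ`-adic cohomology (with integral coefficients). A point `b` of `B` over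
a number field `K` gives a homomorphism `s : G_K → Γ`. Suppose that the monodromy is big: the identity
component of the Zariski closure of `mon(A)` contains the product of the groups `Sp(V_i)`, `SO(V_i)`.
For example, `f` can be the universal family of smooth hypersurfaces of degree `d` in `ℙ^(m+1)`
(Beauville), or a product of families of this kind.

**Theorem.** There is ONE open normal subgroup `N₀` of `Γ` such that for all points `b` over number
fields `K` for which `G_K → Γ / N₀` is surjective and for which the Mumford-Tate group of `H_b` is as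
large as possible (contains the product of the groups `Sp(V_i)`, `SO(V_i)`):
* the Mumford-Tate conjecture for `H_b` holds at all prime numbers `ℓ` outside a set of natural density
  zero;
* at EVERY prime number `ℓ` the Mumford-Tate conjecture for `H_b` is equivalent to the Tate conjecture on
  endomorphisms of the `V_i` at `ℓ`: the `V_i ⊗ ℚ_ℓ` are semisimple, and the endomorphisms of
  `V_i ⊗ ℚ_ℓ` commuting with an open subgroup of the Galois group are scalars.

The two conditions on `b`: (1) the points `b` over a fixed number field `K` for which `G_K → Γ / N₀` is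
not surjective form a thin set; so by Hilbert's irreducibility theorem, if `B` is an open subset of a
rational variety over `K`, then the condition holds for almost all `b` in `B(K)`. The thin set does not
depend on `ℓ`; for one `ℓ` the existence of a thin set which depends on `ℓ` is well known (Serre,
Terasoma). (2) The Mumford-Tate group is as large as possible outside the Hodge locus of the family.
No conjecture is assumed; that the Frobenius polynomials have rational coefficients which do not depend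
on `ℓ` is a theorem of Deligne. Nothing is assumed on the Hodge numbers.

Idea of the proof: by the comparison of topological and étale monodromy the Lie algebra of the image of
`Γ` at a suitable prime `ℓ₀` is full (theorem in the starting files). This image is a compact group
which is virtually a finitely generated pro-`ℓ₀` group, so its Frattini subgroup is open; this gives
`N₀`, and for the points `b` as above the image of `G_K` at `ℓ₀` is the image of `Γ`. So the
Mumford-Tate conjecture for `H_b` holds at `ℓ₀`, and the theorem `BigGroupOnePrime` on one prime number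
gives the rest.
-/

set_option autoImplicit false

namespace Pool.Agent.Results.MP_c1bb77_ag.FibresOneThinSet

open MvPolynomial Matrix Filter Topology NumberField IsDedekindDomain

noncomputable section

section groups

variable {ι : Type} [Fintype ι] [DecidableEq ι]

/-- The value of a rational polynomial in the entries at a matrix. -/
def value {R : Type} [CommRing R] [Algebra ℚ R] (g : Matrix ι ι R)
    (f : MvPolynomial (ι × ι) ℚ) : R :=
  aeval (fun q : ι × ι => g q.1 q.2) f

/-- `G` is the set of complex points of an algebraic subgroup over `ℚ` of the general linear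
group. -/
def IsQGroup (G : Set (Matrix ι ι ℂ)) : Prop :=
  (∃ P : Set (MvPolynomial (ι × ι) ℚ), ∀ g, g ∈ G ↔ g.det ≠ 0 ∧ ∀ f ∈ P, value g f = 0) ∧
  1 ∈ G ∧ (∀ a ∈ G, ∀ b ∈ G, a * b ∈ G) ∧ ∀ a ∈ G, a⁻¹ ∈ G

/-- The complex points of the Mumford-Tate group: the smallest algebraic subgroup over `ℚ` which
contains `h z` for all `z`. -/
def mumfordTate (h : ℂ → Matrix ι ι ℂ) : Set (Matrix ι ι ℂ) :=
  {g | ∀ G, IsQGroup G → (∀ z, z ≠ 0 → h z ∈ G) → g ∈ G}

/-- The points of the Mumford-Tate group over a field `R`. -/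
def InMumfordTate {R : Type} [Field R] [Algebra ℚ R] (h : ℂ → Matrix ι ι ℂ)
    (g : Matrix ι ι R) : Prop :=
  ∀ f : MvPolynomial (ι × ι) ℚ, (∀ m ∈ mumfordTate h, value m f = 0) → value g f = 0

variable {ℓ : ℕ} [Fact ℓ.Prime] {Γ : Type} [Group Γ]

/-- The points of the identity component of the Zariski closure of `ρ(Γ)` over the algebraic
closure of `ℚ_ℓ`: a polynomial that vanishes on the image of a subgroup of finite index vanishes
at `g`. -/
def InMonodromy (ρ : Γ →* Matrix ι ι ℚ_[ℓ]) (g : Matrix ι ι (AlgebraicClosure ℚ_[ℓ])) : Prop :=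
  ∀ f : MvPolynomial (ι × ι) (AlgebraicClosure ℚ_[ℓ]),
    (∃ Δ : Subgroup Γ, Δ.FiniteIndex ∧ ∀ s ∈ Δ,
      aeval (fun q : ι × ι => algebraMap ℚ_[ℓ] (AlgebraicClosure ℚ_[ℓ]) (ρ s q.1 q.2)) f = 0) →
    aeval (fun q : ι × ι => g q.1 q.2) f = 0

/-- The points of the identity component of the Zariski closure of `mon(A)` in the complex matrices: a
polynomial that vanishes on the image of a subgroup of finite index vanishes at `g`. -/
def InTopologicalMonodromy {A : Type} [Group A] (mon : A →* Matrix ι ι ℤ) (g : Matrix ι ι ℂ) :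
    Prop :=
  ∀ f : MvPolynomial (ι × ι) ℂ,
    (∃ Δ : Subgroup A, Δ.FiniteIndex ∧
      ∀ γ ∈ Δ, aeval (fun q : ι × ι => (mon γ q.1 q.2 : ℂ)) f = 0) →
    aeval (fun q : ι × ι => g q.1 q.2) f = 0

/-- an integral representation as a representation over `ℚ_ℓ` -/
def rational (ρ : Γ →* Matrix ι ι ℤ_[ℓ]) : Γ →* Matrix ι ι ℚ_[ℓ] :=
  ((algebraMap ℤ_[ℓ] ℚ_[ℓ]).mapMatrix : Matrix ι ι ℤ_[ℓ] →+* Matrix ι ι ℚ_[ℓ]).toMonoidHom.comp ρ

/-- The Mumford-Tate conjecture: the two groups agree over `ℚ_ℓ`. -/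
def MumfordTateConjecture (h : ℂ → Matrix ι ι ℂ) (ρ : Γ →* Matrix ι ι ℚ_[ℓ]) : Prop :=
  ∀ g : Matrix ι ι (AlgebraicClosure ℚ_[ℓ]), g.det ≠ 0 → (InMonodromy ρ g ↔ InMumfordTate h g)

end groups

variable {κ : Type} [Fintype κ] [DecidableEq κ] {ι : Type} [Fintype ι] [DecidableEq ι] {n : ι → ℕ}

/-- A rational Hodge structure on `ℚ^κ`: the projections `e (a, b)` to the pieces of type `(a, b)`
of `ℂ^κ`; they are exchanged by complex conjugation, and the pieces of every weight are defined
over `ℚ`. -/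
structure RationalHodgeStructure (κ : Type) [Fintype κ] [DecidableEq κ] where
  /-- the types which occur -/
  types : Finset (ℤ × ℤ)
  /-- the projections -/
  e : ℤ × ℤ → Matrix κ κ ℂ
  mul : ∀ a ∈ types, ∀ b ∈ types, e a * e b = if a = b then e a else 0
  sum : ∑ a ∈ types, e a = 1
  conj : ∀ a ∈ types, a.swap ∈ types ∧ (e a).map (starRingEnd ℂ) = e a.swap
  weight : ∀ w : ℤ, ∃ P : Matrix κ κ ℚ,
    ∑ a ∈ types with a.1 + a.2 = w, e a = P.map (algebraMap ℚ ℂ)

/-- The action of `ℂ^×`: multiplication by `z ^ (-a) * conj z ^ (-b)` on the piece of type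
`(a, b)`. -/
def RationalHodgeStructure.h (V : RationalHodgeStructure κ) (z : ℂ) : Matrix κ κ ℂ :=
  ∑ a ∈ V.types, (z ^ (-a.1) * starRingEnd ℂ z ^ (-a.2)) • V.e a

/-- `Q` is a nondegenerate bilinear form on `V`: if `sp` is true, it is alternating and `h z`
multiplies it by `(z * conj z) ^ (-w)`; if `sp` is false, it is symmetric and `h z` preserves it -/
def IsFormOn {m : ℕ} (w : ℤ) (sp : Bool) (V : RationalHodgeStructure (Fin m))
    (Q : Matrix (Fin m) (Fin m) ℚ) : Prop :=
  Q.det ≠ 0 ∧ Qᵀ = (if sp then -Q else Q) ∧ ∀ z : ℂ, z ≠ 0 →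
    (V.h z)ᵀ * Q.map (algebraMap ℚ ℂ) * V.h z =
      (if sp then (z * starRingEnd ℂ z) ^ (-w) else 1) • Q.map (algebraMap ℚ ℂ)

/-- The block diagonal matrix with the block `A` on `N` and the blocks `t i` on `V_i` -/
def blocks {R : Type} [Zero R] (A : Matrix κ κ R) (t : ∀ i, Matrix (Fin (n i)) (Fin (n i)) R) :
    Matrix (κ ⊕ Σ i, Fin (n i)) (κ ⊕ Σ i, Fin (n i)) R :=
  fromBlocks A 0 0 (blockDiagonal' t)

/-- The action of `ℂ^×` on `N ⊕ (sum of the V_i)`, trivial on `N` -/
def hodge (κ : Type) [Fintype κ] [DecidableEq κ] (V : ∀ i, RationalHodgeStructure (Fin (n i)))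
    (z : ℂ) : Matrix (κ ⊕ Σ i, Fin (n i)) (κ ⊕ Σ i, Fin (n i)) ℂ :=
  blocks 1 fun i => (V i).h z

/-- The representation on `N ⊕ (sum of the V_i)` -/
def galois {ℓ : ℕ} [Fact ℓ.Prime] {Γ : Type} [Group Γ] (α : Γ →* Matrix κ κ ℤ_[ℓ])
    (β : ∀ i, Γ →* Matrix (Fin (n i)) (Fin (n i)) ℤ_[ℓ]) :
    Γ →* Matrix (κ ⊕ Σ i, Fin (n i)) (κ ⊕ Σ i, Fin (n i)) ℤ_[ℓ] where
  toFun σ := blocks (α σ) fun i => β i σ
  map_one' := (Pool.Agent.T2H36.IX.totS α β).map_one
  map_mul' := (Pool.Agent.T2H36.IX.totS α β).map_mul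

/-- the absolute Galois group of `K`, with its profinite (Krull) topology -/
abbrev AbsoluteGaloisGroup (K : Type) [Field K] : Type := Gal(AlgebraicClosure K/K)

/-- `σ` is an (arithmetic) Frobenius element at the prime `v` of the number field `K`: for some prime
`Q` of the algebraic closure above `v` it acts on the residue field as `x ↦ x ^ N(v)` -/
def IsFrobenius {K : Type} [Field K] [NumberField K] (v : HeightOneSpectrum (𝓞 K))
    (σ : AbsoluteGaloisGroup K) : Prop :=
  ∃ Q : Ideal (𝓞 (AlgebraicClosure K)), Q.IsMaximal ∧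
    Q.comap (algebraMap (𝓞 K) (𝓞 (AlgebraicClosure K))) = v.asIdeal ∧
    ∀ x : 𝓞 (AlgebraicClosure K), σ • x - x ^ Ideal.absNorm v.asIdeal ∈ Q

/-- `χ` is the multiplier of weight `w`: its value at (the inverses of arithmetic) Frobenius elements
at `v ∉ S` prime to `ℓ` is `N(v) ^ w` -/
def IsMultiplier {K : Type} [Field K] [NumberField K] (w : ℤ) (S : Set (HeightOneSpectrum (𝓞 K)))
    (ℓ : ℕ) [Fact ℓ.Prime] (χ : AbsoluteGaloisGroup K →* ℚ_[ℓ]) : Prop :=
  ∀ v ∉ S, (ℓ : 𝓞 K) ∉ v.asIdeal → ∀ σ : AbsoluteGaloisGroup K, IsFrobenius v σ →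
    χ σ⁻¹ = (Ideal.absNorm v.asIdeal : ℚ_[ℓ]) ^ w

/-- for all `v ∉ S` prime to `ℓ` the characteristic polynomial of the geometric Frobenius elements at
`v` is `P v` -/
def HasFrobeniusPolynomials {K : Type} [Field K] [NumberField K] {m : ℕ}
    (S : Set (HeightOneSpectrum (𝓞 K))) (P : HeightOneSpectrum (𝓞 K) → Polynomial ℚ) (ℓ : ℕ)
    [Fact ℓ.Prime] (ρ : AbsoluteGaloisGroup K →* Matrix (Fin m) (Fin m) ℚ_[ℓ]) : Prop :=
  ∀ v ∉ S, (ℓ : 𝓞 K) ∉ v.asIdeal → ∀ σ : AbsoluteGaloisGroup K, IsFrobenius v σ →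
    (ρ σ⁻¹).charpoly = (P v).map (algebraMap ℚ ℚ_[ℓ])

/-- the representation `β` of the fundamental group on one piece is continuous and multiplies the form
by `χ` (`sp` true) or preserves it (`sp` false) -/
def IsOnForm {Γ : Type} [Group Γ] [TopologicalSpace Γ] {m : ℕ} (sp : Bool)
    (Q : Matrix (Fin m) (Fin m) ℚ) (ℓ : ℕ) [Fact ℓ.Prime] (χ : Γ →* ℚ_[ℓ])
    (β : Γ →* Matrix (Fin m) (Fin m) ℤ_[ℓ]) : Prop :=
  Continuous β ∧ ∀ g, (rational β g)ᵀ * Q.map (algebraMap ℚ ℚ_[ℓ]) * rational β g =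
    (if sp then χ g else 1) • Q.map (algebraMap ℚ ℚ_[ℓ])

/-- the condition on the rank of one piece -/
def IsGoodRank (sp : Bool) (m : ℕ) : Prop :=
  if sp then 0 < m else (Odd m ∧ 5 ≤ m) ∨ (Even m ∧ 8 ≤ m)

/-- every stable subspace has a stable complement -/
def IsSemisimpleRep {F Γ : Type} [Field F] [Group Γ] {m : ℕ}
    (ρ : Γ →* Matrix (Fin m) (Fin m) F) : Prop :=
  ∀ W : Submodule F (Fin m → F), (∀ σ, ∀ w ∈ W, ρ σ *ᵥ w ∈ W) →
    ∃ W' : Submodule F (Fin m → F), IsCompl W W' ∧ ∀ σ, ∀ w ∈ W', ρ σ *ᵥ w ∈ W'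

/-- every matrix which commutes with an open subgroup is scalar -/
def HasScalarCommutants {F Γ : Type} [Field F] [Group Γ] [TopologicalSpace Γ] {m : ℕ}
    (ρ : Γ →* Matrix (Fin m) (Fin m) F) : Prop :=
  ∀ (A : Matrix (Fin m) (Fin m) F) (U : Subgroup Γ), IsOpen (U : Set Γ) →
    (∀ σ ∈ U, A * ρ σ = ρ σ * A) → ∃ c : F, A = c • (1 : Matrix (Fin m) (Fin m) F)

/-- the set `A` of prime numbers has natural density zero -/
def HasDensityZero (A : Set ℕ) : Prop :=
  Tendsto (fun n : ℕ => (Nat.card {ℓ : ℕ // ℓ ≤ n ∧ ℓ ∈ A} : ℝ) / (Nat.primeCounting n : ℝ))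
    atTop (𝓝 0)

theorem h_mul {m : ℕ} (V : RationalHodgeStructure (Fin m)) {z u : ℂ} :
    V.h (z * u) = V.h z * V.h u := by
  unfold RationalHodgeStructure.h
  rw [Finset.sum_mul]
  refine Finset.sum_congr rfl fun a ha => ?_
  rw [Finset.mul_sum, Finset.sum_eq_single a]
  · rw [smul_mul_smul_comm, V.mul a ha a ha, if_pos rfl, map_mul, mul_zpow, mul_zpow]
    congr 1
    ring
  · intro b hb hba
    rw [smul_mul_smul_comm, V.mul a ha b hb, if_neg (Ne.symm hba), smul_zero]
  · intro h
    exact absurd ha h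

/-- **The Mumford-Tate conjecture for the fibres of families with big monodromy outside one thin
set.** -/
theorem result (w : ℤ) (hw : Odd w) (sp : ι → Bool) (hn : ∀ i, IsGoodRank (sp i) (n i))
    -- the forms
    (Q : ∀ i, Matrix (Fin (n i)) (Fin (n i)) ℚ) (hQs : ∀ i, (Q i)ᵀ = if sp i then -Q i else Q i)
    (hQ : ∀ i, (Q i).det ≠ 0)
    -- the étale fundamental group of the base and its representations
    (Γ : Type) [Group Γ] [TopologicalSpace Γ] [IsTopologicalGroup Γ] [CompactSpace Γ]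
    (α : ∀ (ℓ : ℕ) [Fact ℓ.Prime], Γ →* Matrix κ κ ℤ_[ℓ])
    (hα : ∀ (ℓ : ℕ) [Fact ℓ.Prime], (Set.range (α ℓ)).Finite)
    (χ : ∀ (ℓ : ℕ) [Fact ℓ.Prime], Γ →* ℚ_[ℓ])
    (β : ∀ (i : ι) (ℓ : ℕ) [Fact ℓ.Prime], Γ →* Matrix (Fin (n i)) (Fin (n i)) ℤ_[ℓ])
    (hβ : ∀ (i : ι) (ℓ : ℕ) [Fact ℓ.Prime], IsOnForm (sp i) (Q i) ℓ (χ ℓ) (β i ℓ))
    -- the topological fundamental group and the monodromy representation
    (A : Type) [Group A] (τ : A →* Γ)
    (mon : A →* Matrix (κ ⊕ Σ i, Fin (n i)) (κ ⊕ Σ i, Fin (n i)) ℤ)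
    (hcomp : ∀ (ℓ : ℕ) [Fact ℓ.Prime] (γ : A),
      galois (α ℓ) (fun i => β i ℓ) (τ γ) = (mon γ).map (Int.cast : ℤ → ℤ_[ℓ]))
    -- the monodromy is big
    (hbig : ∀ t : ∀ i, Matrix (Fin (n i)) (Fin (n i)) ℂ,
      (∀ i, (t i)ᵀ * (Q i).map (algebraMap ℚ ℂ) * t i = (Q i).map (algebraMap ℚ ℂ)) →
      (∀ i, (t i).det = 1) → InTopologicalMonodromy mon (blocks 1 t)) :
    ∃ N₀ : Subgroup Γ, N₀.Normal ∧ IsOpen (N₀ : Set Γ) ∧
      -- the points `b` of the base over number fields `K` with `G_K → Γ / N₀` surjective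
      ∀ (K : Type) [Field K] [NumberField K] (s : AbsoluteGaloisGroup K →* Γ), Continuous s →
        (∀ g : Γ, ∃ σ, (s σ)⁻¹ * g ∈ N₀) →
      -- the Frobenius elements
      ∀ (S : Set (HeightOneSpectrum (𝓞 K))), S.Finite →
        (∀ (ℓ : ℕ) [Fact ℓ.Prime], IsMultiplier w S ℓ ((χ ℓ).comp s)) →
      ∀ (P : ι → HeightOneSpectrum (𝓞 K) → Polynomial ℚ),
        (∀ (i : ι) (ℓ : ℕ) [Fact ℓ.Prime],
          HasFrobeniusPolynomials S (P i) ℓ ((rational (β i ℓ)).comp s)) →
      -- the Hodge structure of the fibre, with large Mumford-Tate group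
      ∀ (V : ∀ i, RationalHodgeStructure (Fin (n i))), (∀ i, IsFormOn w (sp i) (V i) (Q i)) →
        (∀ t : ∀ i, Matrix (Fin (n i)) (Fin (n i)) ℂ,
          (∀ i, (t i)ᵀ * (Q i).map (algebraMap ℚ ℂ) * t i = (Q i).map (algebraMap ℚ ℂ)) →
          (∀ i, (t i).det = 1) → blocks (1 : Matrix κ κ ℂ) t ∈ mumfordTate (hodge κ V)) →
      HasDensityZero {ℓ | ∃ _ : Fact ℓ.Prime, ¬ MumfordTateConjecture (hodge κ V)
        ((rational (galois (α ℓ) fun i => β i ℓ)).comp s)} ∧
      ∀ (ℓ : ℕ) [Fact ℓ.Prime],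
        MumfordTateConjecture (hodge κ V) ((rational (galois (α ℓ) fun i => β i ℓ)).comp s) ↔
          ∀ i, IsSemisimpleRep ((rational (β i ℓ)).comp s) ∧
            HasScalarCommutants ((rational (β i ℓ)).comp s) := by
  have hw0 : w ≠ 0 := by
    rintro rfl
    exact absurd hw (by decide)
  obtain ⟨N₀, hN, hNo, hfib⟩ := Pool.Agent.T2H36.FB.fibres_mt (κ := κ) hw0 (sp := sp) hn Q hQs hQ τ
    α hα χ β (fun i ℓ _ => (hβ i ℓ).1) (fun i ℓ _ g => by
      have h1 := (hβ i ℓ).2 g
      cases hsp : sp i with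
      | true =>
        rw [hsp, if_pos rfl] at h1
        show _ = _
        simp only [cond_true, pow_one]
        exact h1
      | false =>
        rw [hsp, if_neg Bool.false_ne_true, one_smul] at h1
        show _ = _
        simp only [cond_false, pow_zero]
        rw [one_smul]
        exact h1) mon hcomp hbig
  refine ⟨N₀, hN, hNo, ?_⟩
  intro K _ _ s hs hsN S hS hχ P hP V hV hVbig
  have hh : Pool.Agent.T2H36.MG.Hod κ Q (fun i => bif sp i then 1 else 0) (hodge κ V) := by
    refine Pool.Agent.T2H36.MG.hod_of (t := fun i z => (V i).h z) hQ hw0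
      (fun i z u _ _ => h_mul (V i)) fun i z hz => ?_
    have h1 := (hV i).2.2 z hz
    cases hsp : sp i with
    | true =>
      rw [hsp, if_pos rfl] at h1
      show _ = _
      simp only [cond_true, pow_one]
      exact h1
    | false =>
      rw [hsp] at h1
      show _ = _
      simp only [cond_false, pow_zero]
      simpa using h1
  exact hfib K s hs hsN S hS (fun ℓ _ => hχ ℓ) P (fun i ℓ _ => hP i ℓ) (hodge κ V) hh hVbig

end

end Pool.Agent.Results.MP_c1bb77_ag.FibresOneThinSet
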