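import Pool.Agent.T2H43.HF.MTP

/-!
# The Mumford-Tate conjecture for products with varieties of level two

Let `W` be a cohomology theory of smooth projective varieties over a finitely generated field with
coefficients in an algebraically closed field which is isomorphic to `ℂ`: the cohomology of the
complex manifolds, with its rational Hodge structures (`HodgeData`), and the étale cohomology with
the action of the Galois group `Γ` (`GaloisData`). On all representations of `Γ` there is an
operator (`WeightOps`, a derivation of the category of representations; for example the operator of
Sen, whose eigenvalues are the Hodge-Tate weights).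

Let `X i` be any family of even-dimensional varieties such that homological and numerical equivalence
coincide on `X i`, the transcendental cohomology `T i` is concentrated in the middle degree, and is
an absolutely irreducible Hodge structure of level two with the Hodge numbers `p`, `q`, `p` with
`p = 1`, `q > 0`, `q ≠ 2` or `p ≥ 2`, `gcd(p, q) = 1`, `2 p ^ 2 (p ^ 2 + 1) < (q - 2 p) (q + p)`; for
different `i` they are not isomorphic up to scalars. The Galois representations `T i` satisfy the
same conditions: `T i` is irreducible under all open subgroups and its weights `h + 1`, `h`, `h - 1`
have multiplicities `p'`, `q'`, `p'` with the same properties, and for different `i` they are not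
isomorphic up to twists. The cohomology of `Z` is generated by small sub-Hodge-structures
(`SmallBase`; for `p ≥ 2` it suffices that it is generated in degree one, for example for abelian
varieties) and by small Galois representations (`SmallGal`; for abelian varieties and `p' ≥ 2` this
follows from the weights `0`, `1` of `H^1`).

Then the Mumford-Tate conjecture (Tate classes = linear combinations of Hodge classes) for all powers
of any product of `Z` and of powers of the `X i` is equivalent to the Mumford-Tate conjecture for all
powers of `Z`.
-/

open CategoryTheory AlgebraicGeometry

universe u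

namespace Pool.Agent.Results.MP_c1bb77_ag.LevelTwoProducts

open Pool.Agent.H914 Pool.Agent.H914.VarClass Pool.Agent.H914.VarClass.Obj Pool.Agent.Y132.AH
  Pool.Agent.T2H43.HF.P

variable {k : Type u} [Field k] {𝒱 : VarClass k} {ops : CycleOps 𝒱}

theorem result (W : WeilCohomology.{u, 0} ops) [IsAlgClosed W.K] (e : W.K ≃+* ℂ)
    (Ψ : HodgeData W) {Γ : Type} [Group Γ] (G : GaloisData W Γ) (D : WeightOps W.K Γ) {ι : Type}
    [DecidableEq ι] (p q p' q' : ι → ℕ) (X : ι → 𝒱.Obj) (Z : 𝒱.Obj)
    (hX : LevelTwoFamily Ψ p q X) (hG : GalLevelTwo D G p' q' X)
    (hsmall : ∀ i, SmallBase Ψ (X i) Z ∨ (2 ≤ p i ∧ GeneratedIn W Z {1}))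
    (hsmallG : ∀ i, SmallGal D G (X i) Z) (L : List ι) :
    MumfordTateAll Ψ G (prodList X Z L) ↔ MumfordTateAll Ψ G Z :=
  Pool.Agent.T2H43.HF.lv_MT D G Ψ e hX hG hsmall hsmallG L

end Pool.Agent.Results.MP_c1bb77_ag.LevelTwoProducts
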