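import Pool.Agent.T2H43.HF.MTP

/-!
# The Mumford-Tate conjecture for products of varieties with big monodromy of orthogonal type

Let `W` be a cohomology theory of smooth projective varieties over a finitely generated field with
coefficients in an algebraically closed field: the cohomology of the complex manifolds, with its
rational Hodge structures (`HodgeData`), and the étale cohomology with the action of the Galois group
`Γ` (`GaloisData`). On all representations of `Γ` there is an operator (`WeightOps`, a derivation of
the category of representations; for example the operator of Sen, whose eigenvalues are the
Hodge-Tate weights).

Let `X i` be any family of even-dimensional varieties such that homological and numerical equivalence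
coincide on `X i`, the transcendental cohomology `T i` is concentrated in the middle degree, has
dimension `3` or at least `5`, at least two Hodge types and at least two weights, and the Mumford-Tate
group and the Galois group act irreducibly on the Lie algebra of the skew operators on `T i` (this
means that the two groups have the Lie algebra `so(T i)`, up to scalars, so the Mumford-Tate
conjecture holds for `T i`); and for different `i` and `j` both the Hodge structures and the Galois
representations on these Lie algebras are not isomorphic, or `dim T j ≠ 8` and `T i` and `T j` are
not isomorphic up to twists. The cohomology of `Z` is generated by small sub-Hodge-structures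
(`SmallBase`) and by small Galois representations (`SmallGal`).

Then the Mumford-Tate conjecture (Tate classes = linear combinations of Hodge classes) for all powers
of any product of `Z` and of powers of the `X i` is equivalent to the Mumford-Tate conjecture for all
powers of `Z`.

It is not assumed that `T i` is irreducible under subgroups of finite index of the Galois group: this
follows, since the operators preserve all subspaces which are stable under such a subgroup.
-/

open CategoryTheory AlgebraicGeometry

universe u

namespace Pool.Agent.Results.MP_c1bb77_ag.OrthogonalProducts

open Pool.Agent.H914 Pool.Agent.H914.VarClass Pool.Agent.H914.VarClass.Obj Pool.Agent.Y132.AH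
  Pool.Agent.T2H43.HF.P

variable {k : Type u} [Field k] {𝒱 : VarClass k} {ops : CycleOps 𝒱}

theorem result (W : WeilCohomology.{u, 0} ops) [IsAlgClosed W.K] (Ψ : HodgeData W) {Γ : Type}
    [Group Γ] (G : GaloisData W Γ) (D : WeightOps W.K Γ) {ι : Type} [DecidableEq ι]
    (X : ι → 𝒱.Obj) (Z : 𝒱.Obj) (hX : EvenFamily W X) (hΨ : BigFor (hodgeOp Ψ) X)
    (hG : BigFor (galOp G) X) (htwo : TwoFor Ψ D G X) (hsmall : ∀ i, SmallBase Ψ (X i) Z)
    (hsmallG : ∀ i, SmallGal D G (X i) Z) (L : List ι) :
    MumfordTateAll Ψ G (prodList X Z L) ↔ MumfordTateAll Ψ G Z :=
  Pool.Agent.T2H43.HF.orth_MT D G Ψ hX hΨ hG htwo hsmall hsmallG L

end Pool.Agent.Results.MP_c1bb77_ag.OrthogonalProducts
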